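import Mathlib

/-!
# Determinants of powers with at most one missing exponent
-/

namespace Pool.Agent.Helper57.HK

open Polynomial

/-- The signs of the coefficients of a product of `X - C b` with positive `b`. -/
private theorem coeff_sign {ι : Type*} [DecidableEq ι] (s : Finset ι) (z : ι → ℚ) :
    (∀ i ∈ s, 0 < z i) → ∀ k ≤ s.card,
      0 < (-1 : ℚ) ^ (s.card - k) * (∏ i ∈ s, (X - C (z i))).coeff k := by
  induction s using Finset.induction_on with
  | empty =>
    intro _ k hk
    rw [Finset.card_empty, Nat.le_zero] at hk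
    subst hk
    simp
  | insert a s ha ih =>
    intro hz k hk
    have hza : 0 < z a := hz a (Finset.mem_insert_self _ _)
    have ih' := ih fun i hi => hz i (Finset.mem_insert_of_mem hi)
    rw [Finset.prod_insert ha, Finset.card_insert_of_notMem ha] at *
    have hd : (∏ i ∈ s, (X - C (z i))).natDegree = s.card := by
      rw [natDegree_prod_of_monic _ _ fun i _ => monic_X_sub_C _]
      simp
    rcases k with _ | k
    · rw [sub_mul, coeff_sub, coeff_X_mul_zero, coeff_C_mul, Nat.sub_zero, pow_succ]
      have := ih' 0 (Nat.zero_le _)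
      rw [Nat.sub_zero] at this
      have h2 := mul_pos hza this
      nlinarith [h2]
    · rw [sub_mul, coeff_sub, coeff_X_mul, coeff_C_mul, Nat.add_sub_add_right]
      have h1 := ih' k (by omega)
      rcases Nat.lt_or_ge k s.card with hlt | hge
      · have h2 := mul_pos hza (ih' (k + 1) (by omega))
        have h3 : s.card - k = (s.card - (k + 1)) + 1 := by omega
        rw [h3, pow_succ] at h1 ⊢
        nlinarith [h1, h2]
      · have h4 : (∏ i ∈ s, (X - C (z i))).coeff (k + 1) = 0 :=
          coeff_eq_zero_of_natDegree_lt (by omega)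
        rw [h4, mul_zero, sub_zero]
        exact h1

/-- All coefficients of a product of `X - C b` with positive `b` are different from zero. -/
theorem coeff_ne_zero {ι : Type*} [DecidableEq ι] (s : Finset ι) (z : ι → ℚ)
    (hz : ∀ i ∈ s, 0 < z i) {k : ℕ} (hk : k ≤ s.card) :
    (∏ i ∈ s, (X - C (z i))).coeff k ≠ 0 := by
  intro h
  have := coeff_sign s z hz k hk
  rw [h, mul_zero] at this
  exact lt_irrefl _ this

/-- Powers of distinct positive numbers with distinct exponents among `0, .., n`. -/
theorem det_pow_ne_zero {n : ℕ} (z : Fin n → ℚ) (hz : ∀ b, 0 < z b) (hi : Function.Injective z)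
    (e : Fin n → ℕ) (he : Function.Injective e) (hle : ∀ i, e i ≤ n) :
    (Matrix.of fun b i => z b ^ e i).det ≠ 0 := by
  intro h0
  obtain ⟨w, hw, hw0⟩ := Matrix.exists_mulVec_eq_zero_iff.2 h0
  -- the missing exponent
  obtain ⟨k, hk, hke⟩ : ∃ k ∈ Finset.range (n + 1), k ∉ Finset.univ.image e := by
    by_contra hcon
    push Not at hcon
    have h1 : Finset.range (n + 1) ⊆ Finset.univ.image e := fun k hk => hcon k hk
    have h2 := Finset.card_le_card h1
    have h3 : (Finset.univ.image e).card ≤ n := Finset.card_image_le.trans (by simp)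
    rw [Finset.card_range] at h2
    omega
  have hke' : ∀ i, e i ≠ k := fun i hi => hke (Finset.mem_image.2 ⟨i, Finset.mem_univ _, hi⟩)
  have hk' : k ≤ n := by
    have := Finset.mem_range.1 hk
    omega
  set P : ℚ[X] := ∑ i, C (w i) * X ^ e i with hP
  set Q : ℚ[X] := ∏ b : Fin n, (X - C (z b)) with hQ
  have hQm : Q.Monic := monic_prod_of_monic _ _ fun i _ => monic_X_sub_C _
  have hQd : Q.natDegree = n := by
    rw [hQ, natDegree_prod_of_monic _ _ fun i _ => monic_X_sub_C _]
    simp
  have hroot : ∀ b, P.eval (z b) = 0 := by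
    intro b
    have h1 := congrFun hw0 b
    rw [hP, eval_finsetSum]
    rw [Matrix.mulVec, dotProduct, Pi.zero_apply] at h1
    refine Eq.trans (Finset.sum_congr rfl fun i _ => ?_) h1
    rw [eval_mul, eval_C, eval_pow, eval_X, Matrix.of_apply, mul_comm]
  have hdvd : Q ∣ P := by
    rw [hQ]
    refine Finset.prod_dvd_of_coprime ?_ ?_
    · intro b _ b' _ hb
      exact pairwise_coprime_X_sub_C hi hb
    · intro b _
      exact dvd_iff_isRoot.2 (hroot b)
  have hPd : P.natDegree ≤ n := by
    rw [hP]
    refine natDegree_sum_le_of_forall_le _ _ fun i _ => ?_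
    exact (natDegree_C_mul_X_pow_le _ _).trans (hle i)
  have hcoef : ∀ l, P.coeff l = ∑ i, if e i = l then w i else 0 := by
    intro l
    rw [hP, finsetSum_coeff]
    refine Finset.sum_congr rfl fun i _ => ?_
    rw [coeff_C_mul, coeff_X_pow]
    by_cases h : e i = l
    · rw [if_pos h, if_pos h.symm, mul_one]
    · rw [if_neg h, if_neg (Ne.symm h), mul_zero]
  have hPk : P.coeff k = 0 := by
    rw [hcoef]
    exact Finset.sum_eq_zero fun i _ => if_neg (hke' i)
  have hP0 : P = 0 := by
    by_contra hne
    obtain ⟨R, hR⟩ := hdvd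
    have hR0 : R ≠ 0 := by
      rintro rfl
      exact hne (by rw [hR, mul_zero])
    have hdeg : P.natDegree = n + R.natDegree := by
      rw [hR, hQm.natDegree_mul' hR0, hQd]
    have hRd : R.natDegree = 0 := by omega
    obtain ⟨c, hc⟩ := natDegree_eq_zero.1 hRd
    have hc0 : c ≠ 0 := by
      rintro rfl
      exact hR0 (by rw [← hc, C_0])
    rw [hR, ← hc, mul_comm, coeff_C_mul] at hPk
    have h5 := coeff_ne_zero (Finset.univ : Finset (Fin n)) z (fun i _ => hz i) (k := k)
      (by simpa using hk')
    exact (mul_ne_zero hc0 h5) hPk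
  apply hw
  funext i
  have h6 := hcoef (e i)
  rw [hP0, coeff_zero, Finset.sum_eq_single i] at h6
  · rw [if_pos rfl] at h6
    exact h6.symm
  · intro b _ hb
    exact if_neg fun h => hb (he h)
  · intro h
    exact absurd (Finset.mem_univ _) h

/-- The usual Vandermonde determinant with exponents `n, .., 0`. -/
theorem det_pow_rev_ne_zero {K : Type*} [Field K] {n : ℕ} (z : Fin n → K)
    (hi : Function.Injective z) :
    (Matrix.of fun b i : Fin n => z b ^ (n - 1 - (i : ℕ))).det ≠ 0 := by
  have h1 : (Matrix.of fun b i : Fin n => z b ^ (n - 1 - (i : ℕ))) =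
      (Matrix.vandermonde z).submatrix id Fin.revPerm := by
    ext b i
    simp only [Matrix.of_apply, Matrix.submatrix_apply, Matrix.vandermonde_apply, id_eq,
      Fin.revPerm_apply, Fin.val_rev]
    congr 1
    omega
  rw [h1, Matrix.det_permute']
  refine mul_ne_zero ?_ (Matrix.det_vandermonde_ne_zero_iff.2 hi)
  rcases Int.units_eq_one_or (Equiv.Perm.sign (Fin.revPerm : Equiv.Perm (Fin n))) with h | h <;>
    rw [h] <;> simp

end Pool.Agent.Helper57.HK
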