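import Mathlib
import Pool.Agent.Helper76.HK.Good
import Pool.Agent.Helper57.HK.Bas

/-!
# The example: the letters of the other factors
-/

set_option autoImplicit false

namespace Pool.Agent.Helper57.HK.Tail

open Pool.Agent.Helper64.HK Pool.Agent.Helper24.HK Pool.Agent.Helper76.HK
open Pool.Agent.Helper28.HN (I aff)
open Polynomial

/-! ## Polynomials with simple roots -/

/-- A product of different linear factors has simple roots. -/
theorem root_simple {ι : Type*} [Fintype ι] [DecidableEq ι] (z : ι → ℚ)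
    (hz : Function.Injective z) (c : ℚ) (hc : c ≠ 0) (i : ι) :
    (C c * ∏ b, (X - C (z b))).eval (z i) = 0 ∧
      (C c * ∏ b, (X - C (z b))).derivative.eval (z i) ≠ 0 := by
  have h1 : C c * ∏ b, (X - C (z b)) =
      (X - C (z i)) * (C c * ∏ b ∈ Finset.univ.erase i, (X - C (z b))) := by
    rw [← Finset.mul_prod_erase Finset.univ _ (Finset.mem_univ i)]
    ring
  rw [h1]
  constructor
  · simp
  · rw [derivative_mul, eval_add, eval_mul, derivative_sub, derivative_X, derivative_C, sub_zero,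
      eval_one, one_mul, eval_mul (p := X - C (z i)), eval_sub, eval_X, eval_C, sub_self, zero_mul,
      add_zero, eval_mul, eval_C, eval_prod]
    refine mul_ne_zero hc (Finset.prod_ne_zero_iff.2 fun b hb => ?_)
    rw [eval_sub, eval_X, eval_C]
    exact sub_ne_zero.2 fun h => (Finset.mem_erase.1 hb).1 (hz h).symm

/-- The expansion of a monic polynomial of degree `m + 1`. -/
theorem monic_expand {m : ℕ} (W : ℚ[X]) (hW : W.Monic) (hd : W.natDegree = m + 1) :
    ∑ l : Fin (m + 1), C (W.coeff (m - l)) * X ^ (m - (l : ℕ)) = W - X ^ (m + 1) := by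
  have h1 : W = ∑ i ∈ Finset.range (m + 2), C (W.coeff i) * X ^ i := by
    conv_lhs => rw [W.as_sum_range_C_mul_X_pow, hd]
  have h2 : ∑ l : Fin (m + 1), C (W.coeff (m - l)) * X ^ (m - (l : ℕ)) =
      ∑ i ∈ Finset.range (m + 1), C (W.coeff i) * X ^ i := by
    rw [← Finset.sum_range_reflect, Finset.sum_range]
    exact Finset.sum_congr rfl fun l _ => by rw [Nat.add_sub_cancel]
  rw [h2]
  conv_rhs => rw [h1]
  rw [Finset.sum_range_succ _ (m + 1)]
  have h3 : W.coeff (m + 1) = 1 := by rw [← hd]; exact hW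
  rw [h3, C_1, one_mul, add_sub_cancel_right]

/-- Different numbers outside a finite set. -/
theorem exists_big (k m : ℕ) (bad : Finset ℚ) :
    ∃ g : Fin k × Fin (m + 1) → ℚ, Function.Injective g ∧ ∀ q, g q ∉ bad := by
  obtain ⟨B, hB⟩ := Finset.exists_le bad
  refine ⟨fun q => B + 1 + ((finProdFinEquiv q : Fin (k * (m + 1))) : ℕ), ?_, ?_⟩
  · intro q q' h
    have h1 : ((finProdFinEquiv q : Fin (k * (m + 1))) : ℕ) = (finProdFinEquiv q' : Fin _) := by
      have h2 : (((finProdFinEquiv q : Fin (k * (m + 1))) : ℕ) : ℚ) =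
          ((finProdFinEquiv q' : Fin (k * (m + 1))) : ℕ) := by
        simpa using h
      exact_mod_cast h2
    exact finProdFinEquiv.injective (Fin.ext h1)
  · intro q hq
    have h1 := hB _ hq
    have h2 : (0 : ℚ) ≤ ((finProdFinEquiv q : Fin (k * (m + 1))) : ℕ) := Nat.cast_nonneg _
    linarith

section

variable {k m : ℕ} (j1 j2 : Fin k) (H : Head m) (g : Fin k × Fin (m + 1) → ℚ)

/-- The letters. -/
noncomputable def zt : Lt k m → ℚ
  | none => H.z none
  | some q => if q.1 = j1 then H.z (some q.2) else if q = (j2, 0) then H.ρ (some 0) else g q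

/-- The polynomial of the letters of the factor `j`. -/
noncomputable def Wt (j : Fin k) : ℚ[X] := ∏ b : Fin (m + 1), (X - C (zt j1 j2 H g (some (j, b))))

/-- The numbers. -/
noncomputable def Nt (θ : ℚ) : Num k m ℚ where
  f := fun j d l => if j = j1 then H.f d l else if d = 0 then (Wt j1 j2 H g j).coeff (m - l) else
    if d = 1 then (if l = 0 then 1 else 0) else 0
  zy := H.z none
  θ := θ

/-- The parameters. -/
def Pt (h12 : j1 ≠ j2) : Par k m where
  j1 := j1
  j2 := j2
  h := H.h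
  p := 1
  q := 2
  dd := fun j s => if j = j1 then H.dd s else 1
  ep := fun j l => if j = j1 then H.ep l else m - l
  h12 := h12
  hl := fun j => by
    split_ifs
    · exact H.hl
    · simp
  hs := fun j s => by
    split_ifs
    · exact H.hs s
    · have := s.isLt
      simp only [Fin.val_castSucc, Fin.val_succ]
      have h1 : ((1 : Fin 3) : ℕ) = 1 := rfl
      rw [h1]
      omega

end

section

variable {k m : ℕ} (hm : 2 ≤ m)

include hm in
theorem val_one' : ((1 : Fin (m + 1)) : ℕ) = 1 := by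
  rw [Fin.val_one']
  exact Nat.mod_eq_of_lt (by omega)

include hm in
theorem val_two' : ((2 : Fin (m + 1)) : ℕ) = 2 := by
  change 2 % (m + 1) = 2
  exact Nat.mod_eq_of_lt (by omega)

include hm in
theorem one_ne' : (1 : Fin (m + 1)) ≠ 0 := by
  intro h
  have := congrArg Fin.val h
  rw [val_one' hm] at this
  simp at this

include hm in
theorem two_ne' : (2 : Fin (m + 1)) ≠ 0 := by
  intro h
  have := congrArg Fin.val h
  rw [val_two' hm] at this
  simp at this

include hm in
theorem two_ne_one' : (2 : Fin (m + 1)) ≠ 1 := by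
  intro h
  have := congrArg Fin.val h
  rw [val_two' hm, val_one' hm] at this
  omega

end

section

variable {k m : ℕ} (j1 j2 : Fin k) (H : Head m)

/-- The choices. -/
def St (hm : 2 ≤ m) (h12 : j1 ≠ j2) : Sel k m where
  S := ![(j2, 1), (j1, H.iC), (j1, H.iA), (j2, 0), (j2, 2)]
  hS := by
    have e1 := one_ne' (m := m) hm
    have e2 := two_ne' (m := m) hm
    have e3 := two_ne_one' (m := m) hm
    intro x y hxy
    fin_cases x <;> fin_cases y <;>
      simp [h12, h12.symm, e1, e1.symm, e2, e2.symm, e3, e3.symm, H.hAC, H.hAC.symm] at hxy ⊢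
  f := j1
  j := (j2, 0)
  m' := (j1, 0)
  l := (j1, 1)
  hjm := fun h => h12 (congrArg Prod.fst h).symm
  hml := fun h => one_ne' hm (congrArg Prod.snd h).symm
  hlj := fun h => h12 (congrArg Prod.fst h)

end

/-! ## The letters -/

section letters

variable {k m : ℕ} (j1 j2 : Fin k) (H : Head m) (g : Fin k × Fin (m + 1) → ℚ)

/-- The letter of the first factor with the number `β`. -/
def hd : Option (Fin (m + 1)) → Lt k m := Option.map fun c => (j1, c)

theorem hd_inj {β β' : Option (Fin (m + 1))} (h : hd (k := k) j1 β = hd j1 β') : β = β' :=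
  Option.map_injective (fun _ _ h => congrArg Prod.snd h) h

theorem zt_hd (β : Option (Fin (m + 1))) : zt j1 j2 H g (hd j1 β) = H.z β := by
  rcases β with _ | c
  · rfl
  · exact if_pos rfl

theorem cases3 (b : Lt k m) :
    (∃ β, b = hd j1 β ∧ zt j1 j2 H g b = H.z β) ∨
    (b = some (j2, 0) ∧ zt j1 j2 H g b = H.ρ (some 0)) ∨
    (∃ q : Fin k × Fin (m + 1), b = some q ∧ q.1 ≠ j1 ∧ q ≠ (j2, 0) ∧ zt j1 j2 H g b = g q) := by
  rcases b with _ | q
  · exact Or.inl ⟨none, rfl, rfl⟩
  · by_cases h1 : q.1 = j1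
    · refine Or.inl ⟨some q.2, ?_, if_pos h1⟩
      rw [hd, Option.map_some, ← h1]
    · by_cases h2 : q = (j2, 0)
      · refine Or.inr (Or.inl ⟨by rw [h2], ?_⟩)
        exact (if_neg h1).trans (if_pos h2)
      · exact Or.inr (Or.inr ⟨q, rfl, h1, h2, (if_neg h1).trans (if_neg h2)⟩)

variable {j1 j2 H g} (h12 : j1 ≠ j2) (hginj : Function.Injective g) (hg0 : ∀ q, g q ≠ 0)
  (hgz : ∀ q b, g q ≠ H.z b) (hgρ : ∀ q b, g q ≠ H.ρ b)

include hginj hgz hgρ in
theorem zt_inj : Function.Injective (zt j1 j2 H g) := by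
  intro b b' h
  rcases cases3 j1 j2 H g b with ⟨β, hb, e⟩ | ⟨hb, e⟩ | ⟨q, hb, -, -, e⟩ <;>
    rcases cases3 j1 j2 H g b' with ⟨β', hb', e'⟩ | ⟨hb', e'⟩ | ⟨q', hb', -, -, e'⟩
  all_goals rw [e, e'] at h
  · rw [hb, hb', H.inj h]
  · exact absurd h.symm (H.hρ1 _)
  · exact absurd h.symm (hgz _ _)
  · exact absurd h (H.hρ1 _)
  · rw [hb, hb']
  · exact absurd h.symm (hgρ _ _)
  · exact absurd h (hgz _ _)
  · exact absurd h (hgρ _ _)
  · rw [hb, hb', hginj h]

include hg0 in
theorem zt_ne (b : Lt k m) : zt j1 j2 H g b ≠ 0 := by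
  rcases cases3 j1 j2 H g b with ⟨β, -, e⟩ | ⟨-, e⟩ | ⟨q, -, -, -, e⟩
  all_goals rw [e]
  · exact H.ne0 _
  · exact H.hρ0
  · exact hg0 _

/-! ## The polynomials -/

variable (θ : ℚ)

theorem pP_head : pP (Pt j1 j2 H h12) (Nt j1 j2 H g θ) j1 =
    C H.μ * ∏ b, (X - C (H.z b)) := by
  rw [← H.psi]
  unfold pP
  refine Finset.sum_congr rfl fun d _ => ?_
  congr 1
  refine Finset.sum_congr rfl fun l _ => ?_
  have h1 : (Nt j1 j2 H g θ).f j1 d l = H.f d l := if_pos rfl
  have h2 : (Pt j1 j2 H h12).ep j1 l = H.ep l := if_pos rfl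
  rw [h1, h2]

theorem Ph_head (b : Option (Fin (m + 1))) (x : ℚ) :
    Ph (Pt j1 j2 H h12) (Nt j1 j2 H g θ) j1 (H.z b) x =
      H.κ b * (x - H.z b) * (x - H.ρ b) := by
  rw [← H.phi]
  unfold Ph
  refine Finset.sum_congr rfl fun d _ => ?_
  congr 1
  refine Finset.sum_congr rfl fun l _ => ?_
  have h1 : (Nt j1 j2 H g θ).f j1 d l = H.f d l := if_pos rfl
  have h2 : (Pt j1 j2 H h12).ep j1 l = H.ep l := if_pos rfl
  rw [h1, h2]

theorem Wt_monic (j : Fin k) : (Wt j1 j2 H g j).Monic :=
  monic_prod_of_monic _ _ fun _ _ => monic_X_sub_C _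

theorem Wt_deg (j : Fin k) : (Wt j1 j2 H g j).natDegree = m + 1 := by
  unfold Wt
  rw [natDegree_prod_of_monic _ _ fun i _ => monic_X_sub_C _]
  simp

theorem f_tail (j : Fin k) (hj : j ≠ j1) (d : Fin 3) (l : Fin (m + 1)) :
    (Nt j1 j2 H g θ).f j d l = if d = 0 then (Wt j1 j2 H g j).coeff (m - l) else
      if d = 1 then (if l = 0 then 1 else 0) else 0 := if_neg hj

theorem ep_tail (j : Fin k) (hj : j ≠ j1) (l : Fin (m + 1)) :
    (Pt j1 j2 H h12).ep j l = m - l := if_neg hj

theorem pP_tail (j : Fin k) (hj : j ≠ j1) : pP (Pt j1 j2 H h12) (Nt j1 j2 H g θ) j =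
    Wt j1 j2 H g j := by
  unfold pP
  simp only [f_tail θ j hj, ep_tail h12 j hj]
  rw [Fin.sum_univ_three]
  have h1 := monic_expand (Wt j1 j2 H g j) (Wt_monic j) (Wt_deg j)
  have h2 : ∑ l : Fin (m + 1), C (if (1 : Fin 3) = 0 then (Wt j1 j2 H g j).coeff (m - l) else
      if (1 : Fin 3) = 1 then (if l = 0 then (1 : ℚ) else 0) else 0) * X ^ (m - (l : ℕ)) =
      X ^ m := by
    rw [Finset.sum_eq_single 0]
    · simp
    · intro b _ hb
      simp [hb]
    · intro h
      exact absurd (Finset.mem_univ _) h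
  have h3 : ∑ l : Fin (m + 1), C (if (2 : Fin 3) = 0 then (Wt j1 j2 H g j).coeff (m - l) else
      if (2 : Fin 3) = 1 then (if l = 0 then (1 : ℚ) else 0) else 0) * X ^ (m - (l : ℕ)) =
      0 := by
    refine Finset.sum_eq_zero fun l _ => ?_
    simp
  rw [h2, h3]
  simp only [if_true, h1]
  simp only [Fin.coe_ofNat_eq_mod, Nat.zero_mod, pow_zero, one_mul, mul_zero, add_zero]
  norm_num
  ring

theorem Ph_pP (P : Par k m) (N : Num k m ℚ) (j : Fin k) (w : ℚ) : Ph P N j w w = (pP P N j).eval w := by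
  unfold Ph pP
  rw [eval_finsetSum]
  refine Finset.sum_congr rfl fun d _ => ?_
  rw [eval_mul, eval_pow, eval_X, eval_finsetSum]
  congr 1
  exact Finset.sum_congr rfl fun l _ => by rw [eval_mul, eval_C, eval_pow, eval_X]

theorem Ph_tail (j : Fin k) (hj : j ≠ j1) (w x : ℚ) :
    Ph (Pt j1 j2 H h12) (Nt j1 j2 H g θ) j w x =
      (Wt j1 j2 H g j).eval w + (x - w) * w ^ m := by
  rw [← pP_tail h12 θ j hj, ← Ph_pP]
  unfold Ph
  simp only [f_tail θ j hj, ep_tail h12 j hj]
  rw [Fin.sum_univ_three, Fin.sum_univ_three]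
  have h2 : ∑ l : Fin (m + 1), (if (1 : Fin 3) = 0 then (Wt j1 j2 H g j).coeff (m - l) else
      if (1 : Fin 3) = 1 then (if l = 0 then (1 : ℚ) else 0) else 0) * w ^ (m - (l : ℕ)) =
      w ^ m := by
    rw [Finset.sum_eq_single 0]
    · simp
    · intro b _ hb
      simp [hb]
    · intro h
      exact absurd (Finset.mem_univ _) h
  have h3 : ∑ l : Fin (m + 1), (if (2 : Fin 3) = 0 then (Wt j1 j2 H g j).coeff (m - l) else
      if (2 : Fin 3) = 1 then (if l = 0 then (1 : ℚ) else 0) else 0) * w ^ (m - (l : ℕ)) =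
      0 := by
    refine Finset.sum_eq_zero fun l _ => ?_
    simp
  rw [h2, h3]
  simp only [Fin.coe_ofNat_eq_mod, Nat.zero_mod, pow_zero, one_mul, mul_zero, add_zero]
  norm_num
  ring

end letters

/-! ## The conditions -/

section good

variable {k m : ℕ} {j1 j2 : Fin k} {H : Head m} {g : Fin k × Fin (m + 1) → ℚ}
  {a : Fin (k + 1) → Fin (m + 1)} (hm : 2 ≤ m) (h12 : j1 ≠ j2)

/-- The forms different from `a 0` have degree one in `y`. -/
theorem hg_head (hH : (H.typ = none ∧ a j1.succ = a 0) ∨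
    ∃ i, H.typ = some i ∧ (a j1.succ).succAbove i = a 0) (θ : ℚ) :
    Hg a (Pt j1 j2 H h12) (Nt j1 j2 H g θ) := by
  intro i hi j l
  have hr : ∀ s : Fin m, (j = j1 → H.typ ≠ some s) →
      rl (S := ℚ) (Pt j1 j2 H h12) j s 2 l = 0 := by
    intro s hs
    have h1 : ((2 : Fin 3) = (Pt j1 j2 H h12).dd j s) ↔ False := by
      have h2 : (Pt j1 j2 H h12).dd j s = if j = j1 then H.dd s else 1 := rfl
      rw [h2, iff_false]
      by_cases hj : j = j1
      · rw [if_pos hj, H.hdd, if_neg (hs hj)]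
        decide
      · rw [if_neg hj]
        decide
    unfold rl
    simp [h1]
  by_cases h : i = a j.succ
  · subst h
    rw [gg_self]
    by_cases hj : j = j1
    · subst hj
      rcases hH with ⟨_, h2⟩ | ⟨i0, h1, h2⟩
      · exact absurd h2 hi
      · have h3 : (Nt j j2 H g θ).f j 2 l = H.f 2 l := if_pos rfl
        rw [h3, H.hf2 i0 h1, Finset.sum_eq_single i0]
        · have h4 : (2 : Fin 3) = (Pt j j2 H h12).dd j i0 := by
            have h5 : (Pt j j2 H h12).dd j i0 = H.dd i0 := if_pos rfl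
            rw [h5, H.hdd, if_pos h1]
          have h6 : rl (S := ℚ) (Pt j j2 H h12) j i0 2 l = - if l = i0.succ then 1 else 0 := by
            unfold rl
            rw [← h4]
            simp
          rw [h6, h2, sn, sn, if_pos rfl]
          split_ifs <;> ring
        · intro s _ hs
          rw [hr s fun _ h' => hs (Option.some_injective _ (h'.symm.trans h1)), mul_zero]
        · intro h'
          exact absurd (Finset.mem_univ _) h'
    · rw [Finset.sum_eq_zero fun s _ => by rw [hr s fun h' => absurd h' hj, mul_zero],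
        f_tail θ j hj]
      simp
  · obtain ⟨s, rfl⟩ := Fin.exists_succAbove_eq h
    rw [gg_above]
    refine hr s fun hj hs => ?_
    subst hj
    rcases hH with ⟨h1, _⟩ | ⟨i0, h1, h2⟩
    · rw [hs] at h1
      exact absurd h1 (by simp)
    · have h3 : i0 = s := Option.some_injective _ (h1.symm.trans hs)
      subst h3
      exact hi h2

variable (hginj : Function.Injective g) (hg0 : ∀ q, g q ≠ 0)
  (hgz : ∀ q b, g q ≠ H.z b) (hgρ : ∀ q b, g q ≠ H.ρ b) (θ : ℚ)

include hginj hgz hgρ in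
theorem psi_all (b : Lt k m) :
    (pP (Pt j1 j2 H h12) (Nt j1 j2 H g θ) ((St j1 j2 H hm h12).ty b)).eval
      (zt j1 j2 H g b) = 0 ∧
    (pP (Pt j1 j2 H h12) (Nt j1 j2 H g θ) ((St j1 j2 H hm h12).ty b)).derivative.eval
      (zt j1 j2 H g b) ≠ 0 := by
  have hin := zt_inj (j1 := j1) (j2 := j2) (H := H) hginj hgz hgρ
  by_cases h : ∃ β, b = hd j1 β
  · obtain ⟨β, rfl⟩ := h
    have h1 : (St j1 j2 H hm h12).ty (hd j1 β) = j1 := by
      rcases β with _ | c <;> rfl
    rw [h1, pP_head, zt_hd]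
    exact root_simple H.z H.inj H.μ H.μ0 β
  · rcases b with _ | ⟨j, c⟩
    · exact absurd ⟨none, rfl⟩ h
    · have hj : j ≠ j1 := by
        rintro rfl
        exact h ⟨some c, rfl⟩
      have h1 : (St j1 j2 H hm h12).ty (some (j, c)) = j := rfl
      rw [h1, pP_tail h12 θ j hj]
      have h2 := root_simple (fun c => zt j1 j2 H g (some (j, c)))
        (fun c c' hc => congrArg Prod.snd (Option.some_injective _ (hin hc))) 1 one_ne_zero c
      rw [C_1, one_mul] at h2
      exact h2

include hginj hg0 hgz hgρ in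
theorem q1_all (b b' : Lt k m) (hb : b ≠ b')
    (hbb : ¬ (b = some (j1, 0) ∧ b' = some (j2, 0))) :
    Ph (Pt j1 j2 H h12) (Nt j1 j2 H g θ) ((St j1 j2 H hm h12).ty b) (zt j1 j2 H g b)
      (zt j1 j2 H g b') ≠ 0 := by
  have hin := zt_inj (j1 := j1) (j2 := j2) (H := H) hginj hgz hgρ
  have hne : zt j1 j2 H g b' - zt j1 j2 H g b ≠ 0 := sub_ne_zero.2 fun h => hb (hin h).symm
  by_cases h : ∃ β, b = hd j1 β
  · obtain ⟨β, rfl⟩ := h
    have h1 : (St j1 j2 H hm h12).ty (hd j1 β) = j1 := by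
      rcases β with _ | c <;> rfl
    rw [h1]
    rw [zt_hd] at hne ⊢
    rw [Ph_head]
    refine mul_ne_zero (mul_ne_zero (H.κ0 β) hne) (sub_ne_zero.2 ?_)
    rcases cases3 j1 j2 H g b' with ⟨β', hb', e⟩ | ⟨hb', e⟩ | ⟨q, hb', -, -, e⟩
    · rw [e]
      exact H.hρ β β' fun h' => hb (by rw [hb', h'])
    · rw [e]
      refine Ne.symm (H.hρρ β fun h' => hbb ⟨?_, hb'⟩)
      rw [h']
      rfl
    · rw [e]
      exact hgρ q β
  · rcases b with _ | ⟨j, c⟩
    · exact absurd ⟨none, rfl⟩ h
    · have hj : j ≠ j1 := by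
        rintro rfl
        exact h ⟨some c, rfl⟩
      have h1 : (St j1 j2 H hm h12).ty (some (j, c)) = j := rfl
      have h2 := (psi_all hm h12 hginj hgz hgρ θ (some (j, c))).1
      rw [h1] at h2 ⊢
      rw [pP_tail h12 θ j hj] at h2
      rw [Ph_tail h12 θ j hj, h2, zero_add]
      exact mul_ne_zero hne (pow_ne_zero _ (zt_ne hg0 _))

end good

/-- The numbers exist. -/
theorem good_of_head {k m : ℕ} (hm : 2 ≤ m) (j1 j2 : Fin k) (h12 : j1 ≠ j2)
    (a : Fin (k + 1) → Fin (m + 1)) (H : Head m)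
    (hH : (H.typ = none ∧ a j1.succ = a 0) ∨
      ∃ i, H.typ = some i ∧ (a j1.succ).succAbove i = a 0) :
    ∃ P N s zz, Good (k := k) a P N s zz := by
  obtain ⟨g, hginj, hbad⟩ := exists_big k m
    (insert 0 (Finset.univ.image H.z ∪ Finset.univ.image H.ρ))
  have hg0 : ∀ q, g q ≠ 0 := fun q h => hbad q (by rw [h]; exact Finset.mem_insert_self _ _)
  have hgz : ∀ q b, g q ≠ H.z b := fun q b h => hbad q (by
    rw [h]
    exact Finset.mem_insert_of_mem (Finset.mem_union_left _
      (Finset.mem_image_of_mem _ (Finset.mem_univ _))))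
  have hgρ : ∀ q b, g q ≠ H.ρ b := fun q b h => hbad q (by
    rw [h]
    exact Finset.mem_insert_of_mem (Finset.mem_union_right _
      (Finset.mem_image_of_mem _ (Finset.mem_univ _))))
  have hin := zt_inj (j1 := j1) (j2 := j2) (H := H) hginj hgz hgρ
  have e1 := one_ne' (m := m) hm
  have e2 := two_ne' (m := m) hm
  have hj2 : zt j1 j2 H g (some (j2, 0)) = H.ρ (some 0) :=
    (if_neg (Ne.symm h12)).trans (if_pos rfl)
  -- the last number
  obtain ⟨θ, hθ⟩ : ∃ θ : ℚ, sn a (a j1.succ) * θ * (zt j1 j2 H g (some (j2, 0)) - 1) *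
      (pP (Pt j1 j2 H h12) (Nt j1 j2 H g 0) j2).derivative.eval (zt j1 j2 H g (some (j2, 0))) ≠
      2 * sn a (a j2.succ) * zt j1 j2 H g (some (j2, 0)) ^ (Pt j1 j2 H h12).ep j2 2 *
      (∑ l, (Nt j1 j2 H g 0).f j1 1 l + 2 * zt j1 j2 H g (some (j2, 0)) *
        ∑ l, (Nt j1 j2 H g 0).f j1 2 l) := by
    set A := sn a (a j1.succ) * (zt j1 j2 H g (some (j2, 0)) - 1) *
      (pP (Pt j1 j2 H h12) (Nt j1 j2 H g 0) j2).derivative.eval
        (zt j1 j2 H g (some (j2, 0))) with hA
    have hA0 : A ≠ 0 := by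
      refine mul_ne_zero (mul_ne_zero ?_ (sub_ne_zero.2 ?_))
        (psi_all hm h12 hginj hgz hgρ 0 (some (j2, 0))).2
      · unfold sn
        split_ifs <;> norm_num
      · rw [hj2, ← H.z1]
        exact H.hρ1 _
    set B := 2 * sn a (a j2.succ) * zt j1 j2 H g (some (j2, 0)) ^ (Pt j1 j2 H h12).ep j2 2 *
      (∑ l, (Nt j1 j2 H g 0).f j1 1 l + 2 * zt j1 j2 H g (some (j2, 0)) *
        ∑ l, (Nt j1 j2 H g 0).f j1 2 l)
    by_cases hB : B = 0
    · refine ⟨1, ?_⟩
      rw [hB, mul_one, ← hA]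
      exact hA0
    · refine ⟨0, ?_⟩
      rw [mul_zero, zero_mul, zero_mul]
      exact Ne.symm hB
  refine ⟨Pt j1 j2 H h12, Nt j1 j2 H g θ, St j1 j2 H hm h12, zt j1 j2 H g, ?_⟩
  exact {
    g2 := hg_head h12 hH θ
    f := rfl
    j := rfl
    m' := rfl
    zm := (if_pos rfl).trans H.z1
    zy := rfl
    S0 := rfl
    S4 := rfl
    hfree := by
      intro e
      have hP : (Pt j1 j2 H h12).j1 = j1 := rfl
      have hh : (Pt j1 j2 H h12).h = H.h := rfl
      rw [hP, hh]
      have h3 := H.hhA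
      have h4 := H.hhC
      fin_cases e
      · exact fun h => h12 (congrArg Prod.fst h).symm
      · exact fun h => h4 (congrArg Prod.snd h).symm
      · exact fun h => h3 (congrArg Prod.snd h).symm
      · exact fun h => h12 (congrArg Prod.fst h).symm
      · exact fun h => h12 (congrArg Prod.fst h).symm
    inj := hin
    ne0 := zt_ne hg0
    psi := fun b => (psi_all hm h12 hginj hgz hgρ θ b).1
    psd := fun b => (psi_all hm h12 hginj hgz hgρ θ b).2
    q0 := by
      have h1 := Ph_head (H := H) (g := g) (j2 := j2) h12 θ (some 0) (H.ρ (some 0))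
      rw [H.z1, sub_self, mul_zero] at h1
      have h2 : (St j1 j2 H hm h12).j = (j2, 0) := rfl
      rw [h2, hj2]
      exact h1
    q1 := fun b b' hb hbb => q1_all hm h12 hginj hg0 hgz hgρ θ b b' hb hbb
    bas := by
      intro l
      by_cases hl : l = j1
      · subst hl
        have h1 : (Matrix.of fun b i : Fin (m + 1) => zt l j2 H g (some (l, b)) ^
            (Pt l j2 H h12).ep l i) = Matrix.of fun b i : Fin (m + 1) => H.z (some b) ^ H.ep i := by
          ext b i
          have h2 : (Pt l j2 H h12).ep l i = H.ep i := if_pos rfl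
          have h3 : zt l j2 H g (some (l, b)) = H.z (some b) := if_pos rfl
          rw [Matrix.of_apply, Matrix.of_apply, h2, h3]
        rw [h1]
        exact H.bas
      · have h1 := Pool.Agent.Helper57.HK.det_pow_rev_ne_zero
          (fun b : Fin (m + 1) => zt j1 j2 H g (some (l, b)))
          (fun c c' hc => congrArg Prod.snd (Option.some_injective _ (hin hc)))
        have h2 : (Matrix.of fun b i : Fin (m + 1) => zt j1 j2 H g (some (l, b)) ^
            (Pt j1 j2 H h12).ep l i) = Matrix.of fun b i : Fin (m + 1) =>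
            zt j1 j2 H g (some (l, b)) ^ (m + 1 - 1 - (i : ℕ)) := by
          ext b i
          rw [Matrix.of_apply, Matrix.of_apply, ep_tail h12 l hl, Nat.add_sub_cancel]
        rw [h2]
        exact h1
    A := by
      intro e he
      fin_cases e
      · exact (f_tail θ j2 (Ne.symm h12) 2 1).trans (by simp)
      · exact (if_pos rfl).trans H.C2
      · exact absurd rfl he
      · exact (f_tail θ j2 (Ne.symm h12) 2 0).trans (by simp)
      · exact (f_tail θ j2 (Ne.symm h12) 2 2).trans (by simp)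
    A2 := fun h => H.A2 ((if_pos rfl).symm.trans h)
    B := by
      intro e he he3
      fin_cases e
      · exact (f_tail θ j2 (Ne.symm h12) 1 1).trans (by simp [e1])
      · exact (if_pos rfl).trans H.C1
      · exact absurd rfl he
      · exact absurd rfl he3
      · exact (f_tail θ j2 (Ne.symm h12) 1 2).trans (by simp [e2])
    B3 := fun h => by
      have h1 := (f_tail (H := H) (g := g) (j2 := j2) θ j2 (Ne.symm h12) 1 0).symm.trans h
      simp at h1
    C1 := fun h => H.C0 ((if_pos rfl).symm.trans h)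
    thc := hθ }

end Pool.Agent.Helper57.HK.Tail
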